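import Pool.Agent.H264Z.ArwD

set_option autoImplicit false

namespace Pool.Agent.Results.MP_df6f8e_pr.DivertDominated

open Pool.Agent.H264Z.Arw

/-- Activated random walk on a finite directed multigraph with a sink: sending an edge `e = (x, y)` to the sink
makes the number of sleeping particles in the final configuration stochastically smaller. -/
theorem result (V E : Type) [Fintype V] [DecidableEq V] [Fintype E] [DecidableEq E]
    (src : E → V) (tgt : E → Option V) (hr : ∀ x, ReachesSink src tgt x)
    (e : E) (y : V) (hy : tgt e = some y) (lam : ℝ) (hlam : 0 < lam) (η : V → ℕ) (k : ℕ) :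
    tailProb src (Function.update tgt e none) lam (fun x => some (η x)) k ≤
      tailProb src tgt lam (fun x => some (η x)) k :=
  divert src tgt hr e y hy lam hlam _ (fun _ => Option.some_ne_none _) k

end Pool.Agent.Results.MP_df6f8e_pr.DivertDominated
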